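import Pool.Agent.Helper6_Eng.Stmts

/-! ENG squad, module LTM. -/

set_option autoImplicit false

namespace Pool.Agent.Eng.H50

open Matrix

theorem law_map {G Q : Type} [Group G] [Group Q] (f : G →* Q) (hf : Function.Surjective f)
    {d : ℕ} (h : Law G d) : Law Q d := by
  obtain ⟨r, hr⟩ := h
  refine ⟨r, fun x y => ?_⟩
  obtain ⟨x, rfl⟩ := hf x
  obtain ⟨y, rfl⟩ := hf y
  have hs : Function.Semiconj f (eng y) (eng (f y)) := by
    intro z
    simp [eng]
  have h1 := (hs.iterate_right r).eq x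
  have h2 := (hs.iterate_right (r + d)).eq x
  rw [← h1, ← h2, hr]

/-- the linear equivalence `(a, b) ↦ (μ a, b)` -/
noncomputable def gmu (F K : Type) [Field F] [Field K] [Algebra F K] (μ : Kˣ) :
    (K × K) ≃ₗ[F] (K × K) where
  toFun v := ((μ : K) * v.1, v.2)
  invFun v := (((μ⁻¹ : Kˣ) : K) * v.1, v.2)
  map_add' := by
    intro u v
    simp [mul_add]
  map_smul' := by
    intro c v
    simp
  left_inv := by
    intro v
    simp
  right_inv := by
    intro v
    simp

theorem gmu_det (F K : Type) [Field F] [Field K] [Algebra F K] [FiniteDimensional F K] (μ : Kˣ)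
    (h : Algebra.norm F (μ : K) = 1) : LinearEquiv.det (gmu F K μ) = 1 := by
  rw [← Units.val_inj, LinearEquiv.coe_det]
  have e : ((gmu F K μ : (K × K) ≃ₗ[F] (K × K)) : (K × K) →ₗ[F] (K × K)) =
      LinearMap.prodMap (Algebra.lmul F K (μ : K)) LinearMap.id := by
    ext v <;> simp [gmu]
  rw [e, LinearMap.det_prodMap, ← Algebra.norm_apply, h, LinearMap.det_id]
  simp

theorem gmu_pow (F K : Type) [Field F] [Field K] [Algebra F K] [FiniteDimensional F K] (μ : Kˣ)
    (h : LinearEquiv.det (gmu F K μ) = 1) (n : ℕ) (v : K × K) :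
    (((⟨gmu F K μ, h⟩ : SpecialLinearGroup F (K × K)) ^ n : SpecialLinearGroup F (K × K))) v =
      ((μ : K) ^ n * v.1, v.2) := by
  induction n generalizing v with
  | zero =>
    rw [pow_zero, pow_zero, one_mul]
    rfl
  | succ n ih =>
    rw [pow_succ]
    have e : ∀ (a b : SpecialLinearGroup F (K × K)) (x : K × K), (a * b) x = a (b x) := fun _ _ _ => rfl
    rw [e, ih]
    simp only [gmu, LinearEquiv.coe_mk, LinearMap.coe_mk, AddHom.coe_mk]
    rw [← mul_assoc, pow_succ]

theorem ltm (hre : LreStmt) (hev : LevStmt) (htr : LtrStmt) : LtmStmt := by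
  intro F _ _ m N h2 hm hN d hd hlaw
  obtain ⟨p, hp⟩ := CharP.exists F
  have hpp : p.Prime := CharP.char_is_prime F p
  have : Fact p.Prime := ⟨hpp⟩
  have : NeZero m := ⟨by omega⟩
  set K := FiniteField.Extension F p m with hK
  have hq2 : 2 ≤ Nat.card F := Finite.one_lt_card
  have hcK : Nat.card K = Nat.card F ^ m := FiniteField.natCard_extension F p m
  have hfr : Module.finrank F K = m := FiniteField.finrank_extension F p m
  set q := Nat.card F with hq
  obtain ⟨γ, hγ⟩ := IsCyclic.exists_generator (α := Kˣ)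
  have hoγ : orderOf γ = q ^ m - 1 := by
    rw [orderOf_eq_card_of_forall_mem_zpowers hγ, Nat.card_units, hcK]
  have hdv : q - 1 ∣ q ^ m - 1 := by
    simpa using Nat.sub_dvd_pow_sub_pow q 1 m
  have hoμ : orderOf (γ ^ (q - 1)) = (q ^ m - 1) / (q - 1) := by
    rw [orderOf_pow_of_dvd (by omega) (by rw [hoγ]; exact hdv), hoγ]
  set μ := γ ^ (q - 1) with hμ
  set e := (q ^ m - 1) / (q - 1) with he
  have hmul : e * (q - 1) = q ^ m - 1 := Nat.div_mul_cancel hdv
  have hqm : 1 ≤ q ^ m := Nat.one_le_pow _ _ (by omega)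
  have hcop : Nat.Coprime e q := by
    rw [Nat.coprime_iff_gcd_eq_one]
    have h1 : Nat.gcd e q ∣ q ^ m - 1 := by
      rw [← hmul]
      exact Dvd.dvd.mul_right (Nat.gcd_dvd_left _ _) _
    have h2 : Nat.gcd e q ∣ q ^ m := dvd_pow (Nat.gcd_dvd_right _ _) (by omega)
    have h3 : Nat.gcd e q ∣ q ^ m - (q ^ m - 1) := Nat.dvd_sub h2 h1
    rw [show q ^ m - (q ^ m - 1) = 1 by omega] at h3
    exact Nat.dvd_one.mp h3
  have hnorm : Algebra.norm F (μ : K) = 1 := by
    rw [hμ, Units.val_pow_eq_pow_val, map_pow]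
    have := Fintype.ofFinite F
    rw [hq, Nat.card_eq_fintype_card]
    apply FiniteField.pow_card_sub_one_eq_one
    rw [Algebra.norm_ne_zero_iff]
    exact γ.ne_zero
  have hdet := gmu_det F K μ hnorm
  let g : SpecialLinearGroup F (K × K) := ⟨gmu F K μ, hdet⟩
  have hgp : ∀ (n : ℕ) (v : K × K), (g ^ n : SpecialLinearGroup F (K × K)) v =
      ((μ : K) ^ n * v.1, v.2) := gmu_pow F K μ hdet
  have hfrV : Module.finrank F (K × K) = 2 * m := by
    rw [Module.finrank_prod, hfr]
    ring
  obtain ⟨φ⟩ := htr F (K × K) (2 * m) hfrV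
  have hlaw' : Law (PSLV F (K × K)) d := law_map φ.symm.toMonoidHom φ.symm.surjective hlaw
  have heven : Even d := by
    rw [even_iff_two_dvd]
    exact hev F (2 * m) h2 (by omega) d hd hlaw
  have h := hre F (K × K) g (LinearMap.range (LinearMap.inl F K K))
    (LinearMap.range (LinearMap.inr F K K)) e 1
    (by
      intro h
      rw [LinearMap.range_eq_bot] at h
      have := LinearMap.congr_fun h 1
      simp at this)
    (by
      intro h
      rw [LinearMap.range_eq_bot] at h
      have := LinearMap.congr_fun h 1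
      simp at this)
    LinearMap.isCompl_range_inl_inr
    (by
      rintro _ ⟨a, rfl⟩
      refine ⟨(μ : K) * a, ?_⟩
      have := hgp 1 (a, 0)
      rw [pow_one, pow_one] at this
      simpa using this.symm)
    (by
      rintro _ ⟨a, rfl⟩
      refine ⟨a, ?_⟩
      have := hgp 1 (0, a)
      rw [pow_one, pow_one] at this
      simpa using this.symm)
    hcop
    (by
      intro v
      rw [hgp, ← Units.val_pow_eq_pow_val, ← hoμ, pow_orderOf_eq_one]
      simp)
    d hlaw'
  obtain ⟨a, ha⟩ := h.2 heven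
  have h1 := ha (0, 1)
  have h3 := ha (1, 0)
  rw [hgp] at h1 h3
  simp only [Prod.smul_mk, Prod.mk.injEq, smul_zero, mul_one, mul_zero] at h1 h3
  have hμd : μ ^ d = 1 := by
    rw [← Units.val_inj, Units.val_pow_eq_pow_val, h3.1, ← h1.2]
    rfl
  have hed : e ∣ d := by
    rw [← hoμ]
    exact orderOf_dvd_of_pow_eq_one hμd
  exact hN.trans hed

end Pool.Agent.Eng.H50
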