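import Pool.Agent.Helper99_Eng3.Stmts

/-!
# OIRT and OPND
-/

set_option autoImplicit false

namespace Pool.Agent.Eng.H50

theorem oirt (hOIRR : OirrStmt) (hOIRI : OiriStmt) (hOTR : OtrStmt) : OirtStmt := by
  intro F U K _ _ _ _ _ _ _ _ P Q m hP hm hU hK hQ g hg hirr d hd
  obtain ⟨m', K', _, _, _, lam, QK, φ, hm', hK', hstd, -, -, -, hφ⟩ :=
    hOIRR F U P hP (by omega) g hg hirr
  have h1 : Module.finrank F U = Module.finrank F K' := φ.finrank_eq
  have h2 : m' = m := by omega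
  subst h2
  obtain ⟨ψ, hψ⟩ := hOIRI F K' K m' QK Q hm' hK' hK hstd hQ
  refine hOTR F U K P Q (ψ.toLinearMap.comp φ.toLinearMap) hP (fun u => ?_) d hd
  show Q (ψ (φ u)) = P u
  rw [hψ, hφ]

theorem orderOf_eq_of_conj {F U K : Type} [Field F] [AddCommGroup U] [Module F U] [Field K]
    [Algebra F K] (g : U ≃ₗ[F] U) (lam : K) (φ : U ≃ₗ[F] K)
    (h : ∀ u, φ (g u) = lam * φ u) : orderOf lam = orderOf g := by
  have hpow : ∀ (j : ℕ) (u : U), φ ((g ^ j) u) = lam ^ j * φ u := by
    intro j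
    induction j with
    | zero => intro u; simp
    | succ j ih =>
      intro u
      rw [pow_succ, pow_succ]
      have e : (g ^ j * g) u = (g ^ j) (g u) := rfl
      rw [e, ih, h, mul_assoc]
  have hiff : ∀ j : ℕ, lam ^ j = 1 ↔ g ^ j = 1 := by
    intro j
    constructor
    · intro hj
      ext u
      apply φ.injective
      rw [hpow, hj, one_mul]
      rfl
    · intro hj
      have h1 := hpow j (φ.symm 1)
      rw [hj] at h1
      have e : (1 : U ≃ₗ[F] U) (φ.symm 1) = φ.symm 1 := rfl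
      rw [e, LinearEquiv.apply_symm_apply, mul_one] at h1
      exact h1.symm
  apply Nat.dvd_antisymm
  · rw [orderOf_dvd_iff_pow_eq_one, hiff]
    exact pow_orderOf_eq_one g
  · rw [orderOf_dvd_iff_pow_eq_one, ← hiff]
    exact pow_orderOf_eq_one lam

theorem opnd (hOIRR : OirrStmt) (hOTR : OtrStmt) (hOSTD : OstdStmt) (hOCEV : OcevStmt)
    (hOCUN : OcunStmt) (hOCMO : OcmoStmt) (hODM1 : Odm1Stmt) : OpndStmt := by
  intro F V U _ _ _ _ _ _ _ _ Q P ι p k hQ hP hV hU hι g hg hirr hp hp2 hk hord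
  obtain ⟨m, K, _, _, _, lam, QK, φ, hm, hK, hstd, hadj, hlam, hφg, hφ⟩ :=
    hOIRR F U P hP hU g hg hirr
  have hlo : orderOf lam = p ^ k := by rw [orderOf_eq_of_conj g lam φ hφg, hord]
  set j : K →ₗ[F] V := ι.comp φ.symm.toLinearMap with hj
  have hjQ : ∀ x, Q (j x) = QK x := by
    intro x
    show Q (ι (φ.symm x)) = QK x
    rw [hι, ← hφ, LinearEquiv.apply_symm_apply]
  by_cases h1 : m = 1
  · subst h1
    refine hODM1 F V K Q QK j p k lam hQ hV (by omega) hstd hjQ ?_ hp hp2 hk hlo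
    rw [pow_one] at hlam
    exact hlam
  · have hODK : OD QK (p ^ k) := by
      rcases Nat.even_or_odd m with he | ho
      · exact hOCEV F K QK m p k lam hm he hK hstd hadj hlam hp hp2 hk hlo
      · have h3 : 3 ≤ m := by
          obtain ⟨c, hc⟩ := ho
          omega
        by_cases hpq : p ∣ Nat.card F + 1
        · exact hOCMO F K QK m p k lam h3 ho hK hstd hadj hlam hp hp2 hpq hk hlo
        · exact hOCUN F K QK m p k lam h3 ho hK hstd hadj hlam hp hp2 hpq hk hlo
    intro d hd hlaw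
    exact hODK d hd (hOTR F K V QK Q j ((hOSTD F K m hm hK).2 QK hstd) hjQ d hlaw)

end Pool.Agent.Eng.H50
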